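import Pool.Agent.H29.PNM.Bridge
import Pool.Agent.H14.PNF.All
import Pool.Agent.H91.PNF.RNKN

/-!
# PNM: the main theorem
-/

set_option autoImplicit false

namespace Pool.PNM

open Polynomial NumberField IsDedekindDomain

/-- The law of Poonen and Rains up to `ε` for families of positive density of elliptic curves over
every number field, and all 2-Selmer ranks in positive proportion. -/
theorem main_thm (K : Type) [Field K] [NumberField K] : Main K ∧ Ranks K :=
  ⟨main_of (Pool.PNF.All.p_law K),
    ranks_of (Pool.PNF.rnkn Pool.NF.alln K (Pool.PNF.All.p_law K))⟩

end Pool.PNM
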