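import Pool.Agent.H29.PNM.Rank
import Pool.Agent.H14.PNF.S6
import Pool.Agent.H25.PRL.IDN

/-!
# PNM: the two forms of the main statement (with helper14)
-/

set_option autoImplicit false
set_option linter.unusedSectionVars false

namespace Pool.PNM

open Polynomial NumberField IsDedekindDomain

theorem cpl_iff (K : Type) [Field K] (L : Type) [Field L] (O : ValuationSubring L)
    (ι : K →+* L) : Pool.TOW.Cpl K L O ι ↔ Cpl K L O ι :=
  ⟨fun h => ⟨h.1, h.2, h.3, h.4⟩, fun h => ⟨h.1, h.2, h.3, h.4⟩⟩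

theorem sel_eq {K : Type} [Field K] (f : K[X]) : Pool.PNF.SelN f = Sel f := by
  unfold Pool.PNF.SelN Sel
  simp only [cpl_iff]
  rfl

theorem pr_eq (r : ℕ) : Pool.PRL.PR r = PR r := rfl

theorem lawZ_iff {K : Type} [Field K] (ε : ℝ) (Z : Set K[X]) :
    Pool.PNF.LawZN ε Z ↔ LawZ ε Z := by
  unfold Pool.PNF.LawZN LawZ
  simp only [sel_eq, pr_eq]

section Defs

variable {K : Type} [Field K] [NumberField K]

/-- The data. -/
def toD (D : Data K) : Pool.NF.DatN K := ⟨D.T, D.T', D.c, D.γ, D.ρ⟩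

/-- The data. -/
def ofD (D : Pool.NF.DatN K) : Data K := ⟨D.T, D.T', D.c, D.γ, D.ρ⟩

theorem ok_iff (D : Data K) : (toD D).Ok ↔ D.Ok := Iff.rfl

theorem tr_iff (D : Data K) : Pool.PNF.Tr0N (toD D) ↔ D.Tr0 := Iff.rfl

theorem tws_iff (D : Data K) (dS : Finset (Pl K) → 𝓞 K) :
    Pool.PNF.TwsN (toD D) dS ↔ Tws D dS := Iff.rfl

theorem sl_eq (T : Finset (Pl K)) : Pool.PRK.Sl T = Sl T := rfl

theorem smooth_iff (f : (𝓞 K)[X]) : Pool.T1.Smooth f ↔ Smooth f := Iff.rfl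

theorem all_eq (Y : ℝ) : (fun f : (𝓞 K)[X] => Pool.T1.fk K f) '' Pool.NF.AllN K Y = All K Y := by
  ext q
  constructor
  · rintro ⟨f, ⟨h1, h2, h3⟩, rfl⟩
    exact ⟨f, h1, h2, h3, rfl⟩
  · rintro ⟨f, h1, h2, h3, rfl⟩
    exact ⟨f, ⟨h1, h2, h3⟩, rfl⟩

theorem fk_inj : Function.Injective (fun f : (𝓞 K)[X] => Pool.T1.fk K f) :=
  Polynomial.map_injective _ (IsFractionRing.injective (𝓞 K) K)

theorem fam_eq (D : Data K) (Y : ℕ) : Pool.PNF.FamSN (toD D) Y = Fam D Y := by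
  ext f
  exact Iff.rfl

theorem bx_mono {r s : ℝ} (h : r ≤ s) {a : 𝓞 K} (ha : a ∈ Bx K r) : a ∈ Bx K s :=
  fun σ => (ha σ).trans h

theorem famZ_eq (D : Data K) (Y : ℕ) : Pool.PNF.FamZSN (toD D) Y = FamS D Y := by
  ext f
  constructor
  · rintro ⟨⟨h1, h2, h3, h4⟩, h5⟩
    exact ⟨⟨h1, h5⟩, h2, h3, h4⟩
  · rintro ⟨⟨h1, h5⟩, h2, h3, h4⟩
    exact ⟨⟨h1, h2, h3, h4⟩, h5⟩

theorem tw_eq (D : Data K) (dS : Finset (Pl K) → 𝓞 K) (A : Set (𝓞 K)[X]) :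
    Pool.PNF.ZAN (toD D) dS A = Tw D dS A := rfl

theorem lawT_iff (ε : ℝ) (D : Data K) (dS : Finset (Pl K) → 𝓞 K) (f : (𝓞 K)[X]) :
    Pool.PNF.LawTN ε (toD D) dS f ↔ LawT ε D dS f := by
  unfold Pool.PNF.LawTN LawT
  simp only [sel_eq, pr_eq]
  rfl

end Defs

/-! ### Ranks -/

section Rank

variable {K : Type} [Field K] [NumberField K]

open Classical in
theorem rankZ {ε : ℝ} {Z : Set K[X]} (hMW : ∀ f ∈ Z, MW f)
    (hod : ∀ f ∈ Z, (Sel f).ncard = 1 → Finite (Pts f) ∧ Odd (Nat.card (Pts f)))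
    (hL : LawZ ε Z) (hZ : Z.Finite) : RankZ ε Z := by
  obtain ⟨hsum, -, h1⟩ := hL
  have hPR0 : (0.2097 : ℝ) < PR 0 := PRL.idn.2.2.2.2.1
  have hPR1 : PR 1 = 2 * PR 0 := PRL.idn.2.2.2.2.2.2
  refine ⟨hMW, h1.trans ?_, ?_⟩
  · have h6 : {f | f ∈ Z ∧ (Sel f).ncard = 1}.ncard ≤
        {f | f ∈ Z ∧ Finite (Pts f) ∧ Odd (Nat.card (Pts f))}.ncard :=
      Set.ncard_le_ncard (fun f hf => ⟨hf.1, hod f hf.1 hf.2⟩) (hZ.subset fun f hf => hf.1)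
    exact_mod_cast h6
  · rcases Set.eq_empty_or_nonempty Z with hZe | hZn
    · subst hZe
      simp
    have hZ0 : (0 : ℝ) < Z.ncard := by
      exact_mod_cast (Set.ncard_pos hZ).2 hZn
    have h3 := hsum 2
    rw [Finset.sum_range_succ, Finset.sum_range_one, pow_zero, pow_one] at h3
    have h4 := abs_le.1 (le_refl |({f | f ∈ Z ∧ (Sel f).ncard = 1}.ncard : ℝ) /
      Z.ncard - PR 0|)
    have h5 := abs_le.1 (le_refl |({f | f ∈ Z ∧ (Sel f).ncard = 2}.ncard : ℝ) /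
      Z.ncard - PR 1|)
    have h6 : (0.6291 - ε) ≤ (({f | f ∈ Z ∧ (Sel f).ncard = 1}.ncard : ℝ) +
        ({f | f ∈ Z ∧ (Sel f).ncard = 2}.ncard : ℝ)) / Z.ncard := by
      rw [add_div]
      linarith [h4.1, h5.1]
    rw [le_div_iff₀ hZ0] at h6
    refine h6.trans ?_
    have h7 : Disjoint {f | f ∈ Z ∧ (Sel f).ncard = 1} {f | f ∈ Z ∧ (Sel f).ncard = 2} := by
      rw [Set.disjoint_left]
      rintro f ⟨_, h8⟩ ⟨_, h9⟩
      omega
    have h8 := Set.ncard_union_eq h7 (hZ.subset fun f hf => hf.1) (hZ.subset fun f hf => hf.1)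
    have h9 : ({f | f ∈ Z ∧ (Sel f).ncard = 1} ∪ {f | f ∈ Z ∧ (Sel f).ncard = 2}).ncard ≤
        {f | f ∈ Z ∧ AddGroup.FG (Pts f) ∧ Module.finrank ℤ (Pts f) ≤ 1}.ncard := by
      refine Set.ncard_le_ncard ?_ (hZ.subset fun f hf => hf.1)
      have key : ∀ f ∈ Z, ∀ k : ℕ, 0 < k → k ≤ 2 → (Sel f).ncard = k →
          AddGroup.FG (Pts f) ∧ Module.finrank ℤ (Pts f) ≤ 1 := by
        intro f hf k hk hk2 hs
        obtain ⟨h10, h11, -⟩ := hMW f hf (fin_of_ncard hk hs)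
        refine ⟨h10, ?_⟩
        by_contra hne
        have : 2 ^ 2 ≤ 2 ^ Module.finrank ℤ (Pts f) :=
          Nat.pow_le_pow_right (by norm_num) (by omega)
        omega
      rintro f (hf | hf)
      · exact ⟨hf.1, key f hf.1 1 one_pos (by norm_num) hf.2⟩
      · exact ⟨hf.1, key f hf.1 2 two_pos le_rfl hf.2⟩
    rw [h8] at h9
    exact_mod_cast h9

end Rank

section Main

variable {K : Type} [Field K] [NumberField K]

theorem cubic_of_all {Y : ℝ} {q : K[X]} (hq : q ∈ All K Y) : q.Monic ∧ q.natDegree = 3 := by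
  obtain ⟨f, hf1, hf2, -, rfl⟩ := hq
  exact ⟨hf1.map _, by rw [hf1.natDegree_map, hf2]⟩

theorem posL_of {ε c Y : ℝ} {Z H : Set K[X]} (hH : H ⊆ All K Y)
    (h : Pool.PNF.PosLN ε c Z H) : PosL ε c Z H := by
  obtain ⟨h1, h2, h3, h4, h5, h6, -⟩ := h
  have h6' := (lawZ_iff ε Z).1 h6
  have hmw : ∀ f ∈ Z, MW f := fun f hf => by
    obtain ⟨hm, hd⟩ := cubic_of_all (hH (h1 hf))
    exact mw_of hm hd (h5 f hf)
  exact ⟨⟨h1, h2, h3, h4, h5⟩, h6',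
    rankZ hmw (fun f hf h => odd_ord (hmw f hf) h) h6' (h2.subset h1)⟩

theorem main_of (h : Pool.PNF.LawNF K) : Main K := by
  obtain ⟨A, hA⟩ := h
  refine ⟨A, fun T' hT' ε hε => ?_⟩
  obtain ⟨k₀, hk₀⟩ := hA T' hT' ε hε
  refine ⟨k₀, fun k hk hk' => ?_⟩
  obtain ⟨b, ⟨D0, hD0⟩, hb⟩ := hk₀ k hk hk'
  refine ⟨b, ⟨ofD D0, hD0⟩, fun D hD hDT hDk hDb => ?_⟩
  obtain ⟨hdS, hall⟩ := hb (toD D) hD hDT hDk hDb
  refine ⟨hdS, fun dS hdS' E hE1 hE => ?_⟩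
  obtain ⟨c, hc, Y₀, hY⟩ := hall dS hdS' E hE1 hE
  refine ⟨c, hc, Y₀, fun Y hYY => ?_⟩
  obtain ⟨h1, h2, h3⟩ := hY Y hYY
  rw [fam_eq, all_eq, tw_eq] at h1
  rw [fam_eq] at h2
  rw [famZ_eq, all_eq, tw_eq] at h3
  refine ⟨posL_of (Y := 2 * E * Y) subset_rfl h1, ?_, fun hTr =>
    posL_of (Y := 2 * E * Y) (fun f hf => hf.1) (h3 hTr)⟩
  simp only [lawT_iff] at h2
  exact h2

open Classical in
/-- The curves in the last statement. -/
theorem rk_mem {r : ℕ} {q : K[X]} {Y : ℝ} (hq : q ∈ All K Y) (hi : Irreducible q)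
    (hfin : (Sel q).Finite) (hs : (Sel q).ncard = 2 ^ r) :
    Irreducible q ∧ (Sel q).ncard = 2 ^ r ∧
      AddGroup.FG (Pts q) ∧ Module.finrank ℤ (Pts q) ≤ r ∧
      (r = 0 → Finite (Pts q) ∧ Odd (Nat.card (Pts q))) := by
  obtain ⟨hm, hd⟩ := cubic_of_all hq
  have h1 := mw_of hm hd hi
  obtain ⟨h2, h3, -⟩ := h1 hfin
  refine ⟨hi, hs, h2, ?_, fun hr => odd_ord h1 (by rw [hs, hr, pow_zero])⟩
  rw [hs] at h3
  exact (Nat.pow_le_pow_iff_right (by norm_num)).1 h3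

theorem ranks_of (h : Pool.PNF.AllRN K) : Ranks K := by
  classical
  intro r
  obtain ⟨δ, hδ, Y₀, hY⟩ := h r
  refine ⟨δ, hδ, Y₀, fun Y hYY => ?_⟩
  obtain ⟨h1, h2, h3, h4⟩ := hY Y hYY
  have hfin : (All K Y).Finite := by
    rw [← all_eq]
    exact h1.image _
  have e1 : (All K Y).ncard = (Pool.NF.AllN K Y).ncard := by
    rw [← all_eq]
    exact Set.ncard_image_of_injective _ fk_inj
  have e2 : {f | f ∈ All K Y ∧ f.coeff 2 = 0} =
      (fun f : (𝓞 K)[X] => Pool.T1.fk K f) '' {f ∈ Pool.NF.AllN K Y | f.coeff 2 = 0} := by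
    ext q
    constructor
    · rintro ⟨⟨f, g1, g2, g3, rfl⟩, g4⟩
      refine ⟨f, ⟨⟨g1, g2, g3⟩, ?_⟩, rfl⟩
      rw [coeff_map] at g4
      exact (IsFractionRing.injective (𝓞 K) K) (by rw [g4, map_zero])
    · rintro ⟨f, ⟨⟨g1, g2, g3⟩, g4⟩, rfl⟩
      refine ⟨⟨f, g1, g2, g3, rfl⟩, ?_⟩
      show (Polynomial.map _ f).coeff 2 = 0
      rw [coeff_map, g4, map_zero]
  have e3 : {f | f ∈ All K Y ∧ f.coeff 2 = 0}.ncard =
      {f ∈ Pool.NF.AllN K Y | f.coeff 2 = 0}.ncard := by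
    rw [e2]
    exact Set.ncard_image_of_injective _ fk_inj
  rw [e3, e1]
  refine ⟨hfin, h2, h3.trans ?_, h4.trans ?_⟩
  · have hsub : (fun f : (𝓞 K)[X] => Pool.T1.fk K f) ''
        {f ∈ Pool.NF.AllN K Y | Irreducible (Pool.T1.fk K f) ∧
        (Pool.PNF.SelN (Pool.T1.fk K f)).Finite ∧
        (Pool.PNF.SelN (Pool.T1.fk K f)).ncard = 2 ^ r} ⊆
        {f | f ∈ All K Y ∧ Irreducible f ∧ (Sel f).ncard = 2 ^ r ∧
          AddGroup.FG (Pts f) ∧ Module.finrank ℤ (Pts f) ≤ r ∧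
          (r = 0 → Finite (Pts f) ∧ Odd (Nat.card (Pts f)))} := by
      rintro _ ⟨f, ⟨g1, g2, g3, g4⟩, rfl⟩
      rw [sel_eq] at g3 g4
      have hq : Pool.T1.fk K f ∈ All K Y := by
        rw [← all_eq]
        exact ⟨f, g1, rfl⟩
      exact ⟨hq, rk_mem hq g2 g3 g4⟩
    have h5 := Set.ncard_le_ncard hsub (hfin.subset fun f hf => hf.1)
    rw [Set.ncard_image_of_injective _ fk_inj] at h5
    exact_mod_cast h5
  · have hsub : (fun f : (𝓞 K)[X] => Pool.T1.fk K f) ''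
        {f ∈ Pool.NF.AllN K Y | f.coeff 2 = 0 ∧ Irreducible (Pool.T1.fk K f) ∧
        (Pool.PNF.SelN (Pool.T1.fk K f)).Finite ∧
        (Pool.PNF.SelN (Pool.T1.fk K f)).ncard = 2 ^ r} ⊆
        {f | (f ∈ All K Y ∧ f.coeff 2 = 0) ∧ Irreducible f ∧ (Sel f).ncard = 2 ^ r ∧
          AddGroup.FG (Pts f) ∧ Module.finrank ℤ (Pts f) ≤ r ∧
          (r = 0 → Finite (Pts f) ∧ Odd (Nat.card (Pts f)))} := by
      rintro _ ⟨f, ⟨g1, g0, g2, g3, g4⟩, rfl⟩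
      rw [sel_eq] at g3 g4
      have hq : Pool.T1.fk K f ∈ All K Y := by
        rw [← all_eq]
        exact ⟨f, g1, rfl⟩
      have hq0 : (Pool.T1.fk K f).coeff 2 = 0 := by
        show (Polynomial.map _ f).coeff 2 = 0
        rw [coeff_map, g0, map_zero]
      exact ⟨⟨hq, hq0⟩, rk_mem hq g2 g3 g4⟩
    have h5 := Set.ncard_le_ncard hsub (hfin.subset fun f hf => hf.1.1)
    rw [Set.ncard_image_of_injective _ fk_inj] at h5
    exact_mod_cast h5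

end Main

end Pool.PNM
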