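import Mathlib

/-!
# The Poonen-Rains law for 2-Selmer groups of elliptic curves over a number field: definitions

`K` is a number field, `𝓞 K` its ring of integers.  The elliptic curves are `y² = f(x)` for
`f = x³ + a_1 x² + a_2 x + a_3`, `a_i = f.coeff (3 - i)`.
-/

set_option autoImplicit false

namespace Pool.PNM

open Polynomial NumberField IsDedekindDomain

/-! ### The 2-Selmer group -/

section Selmer

/-- `L`, with the valuation ring `O`, is a completion of `K` at a finite place: it is a complete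
discretely valued field with finite residue field and `K` is dense in it. -/
structure Cpl (K : Type) [Field K] (L : Type) [Field L] (O : ValuationSubring L)
    (ι : K →+* L) : Prop where
  dvr : IsDiscreteValuationRing O
  complete : IsAdicComplete (IsLocalRing.maximalIdeal O) O
  fin : Finite (IsLocalRing.ResidueField O)
  dense : ∀ z a : L, a ≠ 0 → ∃ x : K, (z - ι x) / a ∈ O

/-- Over the field `L` the class of `p` modulo squares is the class of `(-1)^(deg u) u` for a monic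
`u`, prime to `f`, such that `f` is a square modulo `u`: it is the image of the class of the divisor
`u = 0, y = w` of the curve `y² = f(x)` under the map `x - X`. -/
def LocSol {L : Type} [Field L] (f p : L[X]) : Prop :=
  ∃ u w s : L[X], u.Monic ∧ IsCoprime u f ∧ u ∣ w ^ 2 - f ∧
    f ∣ (-1) ^ u.natDegree * u - p * s ^ 2

variable {K : Type} [Field K]

/-- The squares of the units of `K[X]/(f)`. -/
noncomputable abbrev Sq (f : K[X]) : Subgroup (AdjoinRoot f)ˣ :=
  (powMonoidHom 2 : (AdjoinRoot f)ˣ →* _).range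

/-- The 2-Selmer group over the number field `K` of the elliptic curve `y² = f(x)`, in its classical
description: the classes modulo squares of the units of `K[X]/(f)` whose norm is a square and which
are, over every completion of `K`, classes of divisors.  (The completions are those at the finite
places and, for every embedding `σ` in the real numbers, the field of real numbers; over the complex
numbers there is no condition.) -/
def Sel (f : K[X]) : Set ((AdjoinRoot f)ˣ ⧸ Sq f) :=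
  {ξ | ∃ (u : (AdjoinRoot f)ˣ) (p : K[X]), (QuotientGroup.mk u : (AdjoinRoot f)ˣ ⧸ Sq f) = ξ ∧
    AdjoinRoot.mk f p = (u : AdjoinRoot f) ∧ IsSquare (Algebra.norm K (AdjoinRoot.mk f p)) ∧
    (∀ (L : Type) [Field L] (O : ValuationSubring L) (ι : K →+* L), Cpl K L O ι →
      LocSol (f.map ι) (p.map ι)) ∧
    ∀ σ : K →+* ℝ, LocSol (f.map σ) (p.map σ)}

/-- The group of the rational points of the elliptic curve `y² = f(x)`, `f` monic of degree
three. -/
abbrev Pts (f : K[X]) : Type :=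
  (⟨0, f.coeff 2, 0, f.coeff 1, f.coeff 0⟩ : WeierstrassCurve K).toAffine.Point

/-- The Poonen-Rains law for the prime `2`: `∏ (1 + 2^(-j))⁻¹ (j ≥ 0)` times
`∏ 2 / (2^j - 1) (1 ≤ j ≤ r)`. -/
noncomputable def PR (r : ℕ) : ℝ :=
  (∏' j : ℕ, (1 + (1 / 2 : ℝ) ^ j))⁻¹ * ∏ j ∈ Finset.range r, 2 / ((2 : ℝ) ^ (j + 1) - 1)

/-- The distribution of the 2-Selmer groups of the elements of the finite set `Z` is the law of
Poonen and Rains up to `ε`; the 2-Selmer rank is even for one half of them, up to `ε`. -/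
def LawZ (ε : ℝ) (Z : Set K[X]) : Prop :=
  (∀ B : ℕ, ∑ r ∈ Finset.range B,
    |({f | f ∈ Z ∧ (Sel f).ncard = 2 ^ r}.ncard : ℝ) / Z.ncard - PR r| ≤ ε) ∧
  |({f | f ∈ Z ∧ ∃ r : ℕ, Even r ∧ (Sel f).ncard = 2 ^ r}.ncard : ℝ) / Z.ncard - 1 / 2| ≤ ε ∧
  (0.2097 - ε) * Z.ncard ≤ {f | f ∈ Z ∧ (Sel f).ncard = 1}.ncard

open Classical in
/-- If the 2-Selmer group is finite, then the group of points is finitely generated, its rank is at
most the 2-Selmer rank, and it has no element of order two. -/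
def MW (f : K[X]) : Prop :=
  (Sel f).Finite → AddGroup.FG (Pts f) ∧ 2 ^ Module.finrank ℤ (Pts f) ≤ (Sel f).ncard ∧
    ∀ R : Pts f, R + R = 0 → R = 0

open Classical in
/-- The group of points is finite of odd order for 20.97 per cent of the elements of `Z`, and its
rank is at most one for 62.91 per cent, up to `ε`. -/
def RankZ (ε : ℝ) (Z : Set K[X]) : Prop :=
  (∀ f ∈ Z, MW f) ∧
  (0.2097 - ε) * Z.ncard ≤ {f | f ∈ Z ∧ Finite (Pts f) ∧ Odd (Nat.card (Pts f))}.ncard ∧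
  (0.6291 - ε) * Z.ncard ≤
    {f | f ∈ Z ∧ AddGroup.FG (Pts f) ∧ Module.finrank ℤ (Pts f) ≤ 1}.ncard

end Selmer

/-! ### The families -/

section Family

variable (K : Type) [Field K] [NumberField K]

/-- The algebraic integers with all conjugates of absolute value at most `ρ`. -/
def Bx (ρ : ℝ) : Set (𝓞 K) := {a | ∀ σ : K →+* ℂ, ‖σ (a : K)‖ ≤ ρ}

/-- All curves of height at most `Y`: the monic cubic polynomials over `𝓞 K` such that `|a_i| ≤ Y^i`
at all archimedean places, as polynomials over `K`. -/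
def All (Y : ℝ) : Set K[X] :=
  {q | ∃ f : (𝓞 K)[X], f.Monic ∧ f.natDegree = 3 ∧ (∀ i ≤ 3, f.coeff (3 - i) ∈ Bx K (Y ^ i)) ∧
    q = f.map (algebraMap (𝓞 K) K)}

/-- The finite places of `K`. -/
abbrev Pl : Type := HeightOneSpectrum (𝓞 K)

variable {K}

/-- The number of elements of the residue field of `P`. -/
noncomputable def Nm (P : Pl K) : ℕ := Nat.card (𝓞 K ⧸ P.asIdeal)

/-- `p` is zero modulo the ideal `I`. -/
def Zer (I : Ideal (𝓞 K)) (p : (𝓞 K)[X]) : Prop := ∀ i, p.coeff i ∈ I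

/-- `p` modulo the ideal `I`. -/
noncomputable abbrev md (I : Ideal (𝓞 K)) (p : (𝓞 K)[X]) : (𝓞 K ⧸ I)[X] :=
  p.map (Ideal.Quotient.mk I)

/-- `p` is monic of degree `n` and irreducible modulo `P`. -/
def OkP (n : ℕ) (P : Ideal (𝓞 K)) (p : (𝓞 K)[X]) : Prop :=
  p.Monic ∧ p.natDegree = n ∧ Irreducible (md P p)

/-- The scheme `f(x) = 0` over `𝓞 K` has a singular point above `P`: for a polynomial `γ` which is
irreducible modulo `P`, `f` is in the square of the ideal generated by `P` and `γ`. -/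
def Sing (P : Ideal (𝓞 K)) (f : (𝓞 K)[X]) : Prop :=
  ∃ γ a b c : (𝓞 K)[X], γ.Monic ∧ Irreducible (md P γ) ∧ Zer P b ∧ Zer (P ^ 2) c ∧
    f = γ ^ 2 * a + γ * b + c

/-- The scheme `f(x) = 0` is regular. -/
def Smooth (f : (𝓞 K)[X]) : Prop := ∀ P : Pl K, ¬ Sing P.asIdeal f

variable (K)

/-- Local data: finite sets `T` and `T'` of places, and for every place of `T ∪ T'` the reduction of
a polynomial. -/
structure Data where
  /-- the places where `f` is linear times irreducible -/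
  T : Finset (Pl K)
  /-- the places where `f` is irreducible -/
  T' : Finset (Pl K)
  /-- the roots -/
  c : Pl K → 𝓞 K
  /-- the factors of degree two -/
  γ : Pl K → (𝓞 K)[X]
  /-- the irreducible polynomials at the places of `T'` -/
  ρ : Pl K → (𝓞 K)[X]

variable {K}

/-- The conditions on the data: `T` and `T'` are disjoint, `γ` is irreducible of degree two modulo
the places of `T`, `ρ` is irreducible of degree three modulo the places of `T'`, and the places above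
`2` and `3` are in `T'`. -/
def Data.Ok (D : Data K) : Prop :=
  Disjoint D.T D.T' ∧ (∀ P ∈ D.T, OkP 2 P.asIdeal (D.γ P)) ∧
    (∀ P ∈ D.T', OkP 3 P.asIdeal (D.ρ P)) ∧
    ∀ P : Pl K, (2 : 𝓞 K) ∈ P.asIdeal ∨ (3 : 𝓞 K) ∈ P.asIdeal → P ∈ D.T'

/-- The data have trace zero. -/
def Data.Tr0 (D : Data K) : Prop :=
  (∀ P ∈ D.T, ((X - C (D.c P)) * D.γ P).coeff 2 ∈ P.asIdeal) ∧
    ∀ P ∈ D.T', (D.ρ P).coeff 2 ∈ P.asIdeal

/-- The family: all monic cubic polynomials `f` over `𝓞 K` which are smooth, congruent to the data,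
that is, to `(x - c P) γ P` at the places of `T` and to `ρ P` at the places of `T'`, and close to
`x³ - Y³` at all archimedean places. -/
def Fam (D : Data K) (Y : ℕ) : Set (𝓞 K)[X] :=
  {f | (f.Monic ∧ f.natDegree = 3 ∧ (f.coeff 2 ∈ Bx K ((Y : ℝ) / 100) ∧
    f.coeff 1 ∈ Bx K ((Y : ℝ) ^ 2 / 100) ∧
    f.coeff 0 + (Y : 𝓞 K) ^ 3 ∈ Bx K ((Y : ℝ) ^ 3 / 100)) ∧
    (∀ P ∈ D.T, Zer P.asIdeal (f - (X - C (D.c P)) * D.γ P)) ∧
    ∀ P ∈ D.T', Zer P.asIdeal (f - D.ρ P)) ∧ Smooth f}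

/-- The elements of the family with `a_1 = 0`, in a smaller box. -/
def FamS (D : Data K) (Y : ℕ) : Set (𝓞 K)[X] :=
  {f | f ∈ Fam D Y ∧ f.coeff 2 = 0 ∧ f.coeff 1 ∈ Bx K ((Y : ℝ) ^ 2 / 200) ∧
    f.coeff 0 + (Y : 𝓞 K) ^ 3 ∈ Bx K ((Y : ℝ) ^ 3 / 200)}

/-- The elements `dS S`, `S ⊆ T`, may be used for the twists: `dS S` is congruent to `1` modulo `8`,
has order one at the places of `S` and order zero at all other places outside `T'`. -/
def Tws (D : Data K) (dS : Finset (Pl K) → 𝓞 K) : Prop :=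
  ∀ S ⊆ D.T, (dS S ≠ 0 ∧ (∀ P ∈ S, dS S ∈ P.asIdeal ∧ dS S ∉ P.asIdeal ^ 2) ∧
    (∀ P ∈ D.T, P ∉ S → dS S ∉ P.asIdeal) ∧ ∀ P : Pl K, P ∉ D.T → P ∉ D.T' → dS S ∉ P.asIdeal) ∧
    ∃ e : 𝓞 K, dS S = 1 + 8 * e

open Classical in
/-- The sets of `j` or `j + 1` elements of `T`, where `#T = 2 j + 1`. -/
noncomputable def Sl (T : Finset (Pl K)) : Finset (Finset (Pl K)) :=
  T.powerset.filter fun S => S.card = T.card / 2 ∨ S.card = T.card / 2 + 1

/-- The twist of `f` by `d`, a polynomial over `K`: the coefficient `a_i` is multiplied by `d^i`; the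
curve is `d y² = f(x)`. -/
noncomputable def tw (d : 𝓞 K) (f : (𝓞 K)[X]) : K[X] :=
  (f.scaleRoots d).map (algebraMap (𝓞 K) K)

/-- The twists of the elements of `A` by the `dS S`, `S ∈ Sl T`. -/
def Tw (D : Data K) (dS : Finset (Pl K) → 𝓞 K) (A : Set (𝓞 K)[X]) : Set K[X] :=
  {q | ∃ f ∈ A, ∃ S ∈ Sl D.T, q = tw (dS S) f}

/-- The law for the twists of the single polynomial `f`: the Selmer groups have `2^r` elements, `r` is
even for exactly one half of the twists, and the distribution of `r` is the law of Poonen and Rains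
up to `ε`. -/
def LawT (ε : ℝ) (D : Data K) (dS : Finset (Pl K) → 𝓞 K) (f : (𝓞 K)[X]) : Prop :=
  (∀ S ∈ Sl D.T, (Sel (tw (dS S) f)).Finite ∧
    ∃ r : ℕ, (Sel (tw (dS S) f)).ncard = 2 ^ r) ∧
  2 * {S | S ∈ Sl D.T ∧ ∃ r : ℕ, Even r ∧ (Sel (tw (dS S) f)).ncard = 2 ^ r}.ncard =
    (Sl D.T).card ∧
  ∀ B : ℕ, ∑ r ∈ Finset.range B,
    |({S | S ∈ Sl D.T ∧ (Sel (tw (dS S) f)).ncard = 2 ^ r}.ncard : ℝ) / (Sl D.T).card -
      PR r| ≤ ε

/-- The set `Z` consists of irreducible polynomials and has density at least `c` in the finite,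
nonempty set `H`, and the law holds for `Z`. -/
def PosL (ε c : ℝ) (Z H : Set K[X]) : Prop :=
  (Z ⊆ H ∧ H.Finite ∧ 0 < H.ncard ∧ c * H.ncard ≤ Z.ncard ∧ ∀ f ∈ Z, Irreducible f) ∧
    LawZ ε Z ∧ RankZ ε Z

/-- The law for the families given by the data `D`, for all large heights. -/
def Law (ε : ℝ) (D : Data K) (dS : Finset (Pl K) → 𝓞 K) (E : ℕ) : Prop :=
  ∃ c : ℝ, 0 < c ∧ ∃ Y₀ : ℕ, ∀ Y : ℕ, Y₀ ≤ Y →
    PosL ε c (Tw D dS (Fam D Y)) (All K (2 * E * Y)) ∧
    ({f | f ∈ Fam D Y ∧ ¬ LawT ε D dS f}.ncard : ℝ) ≤ ε * (Fam D Y).ncard ∧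
    (D.Tr0 → PosL ε c (Tw D dS (FamS D Y)) {f | f ∈ All K (2 * E * Y) ∧ f.coeff 2 = 0})

end Family

section Main

variable (K : Type) [Field K] [NumberField K]

/-- The law up to `ε` for families of positive density. -/
def Main : Prop :=
  ∃ A : Finset (Pl K), ∀ T' : Finset (Pl K), A ⊆ T' →
    ∀ ε : ℝ, 0 < ε → ∃ k₀ : ℕ, ∀ k : ℕ, Odd k → k₀ ≤ k → ∃ b : ℕ,
    (∃ D : Data K, D.Ok ∧ D.T' = T' ∧ D.T.card = k ∧ (∀ P ∈ D.T, b < Nm P) ∧ D.Tr0) ∧
    ∀ D : Data K, D.Ok → D.T' = T' → D.T.card = k → (∀ P ∈ D.T, b < Nm P) →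
    (∃ dS : Finset (Pl K) → 𝓞 K, Tws D dS) ∧
    ∀ dS : Finset (Pl K) → 𝓞 K, Tws D dS →
    ∀ E : ℕ, 1 ≤ E → (∀ S ⊆ D.T, dS S ∈ Bx K (E : ℝ)) → Law ε D dS E

open Classical in
/-- For every `r` a positive proportion of all curves, ordered by height, is irreducible (no point of
order two) and has a 2-Selmer group with `2^r` elements, so its rank is at most `r`; also for the
curves with `a_1 = 0`.  For `r = 0` the group of points is finite of odd order. -/
def Ranks : Prop :=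
  ∀ r : ℕ, ∃ δ : ℝ, 0 < δ ∧ ∃ Y₀ : ℝ, ∀ Y : ℝ, Y₀ ≤ Y → (All K Y).Finite ∧
    0 < {f | f ∈ All K Y ∧ f.coeff 2 = 0}.ncard ∧
    δ * (All K Y).ncard ≤ {f | f ∈ All K Y ∧ Irreducible f ∧ (Sel f).ncard = 2 ^ r ∧
      AddGroup.FG (Pts f) ∧ Module.finrank ℤ (Pts f) ≤ r ∧
      (r = 0 → Finite (Pts f) ∧ Odd (Nat.card (Pts f)))}.ncard ∧
    δ * {f | f ∈ All K Y ∧ f.coeff 2 = 0}.ncard ≤
      {f | (f ∈ All K Y ∧ f.coeff 2 = 0) ∧ Irreducible f ∧ (Sel f).ncard = 2 ^ r ∧
        AddGroup.FG (Pts f) ∧ Module.finrank ℤ (Pts f) ≤ r ∧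
        (r = 0 → Finite (Pts f) ∧ Odd (Nat.card (Pts f)))}.ncard

end Main

end Pool.PNM
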