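import Pool.Agent.H29.PNM.Defs
import Pool.Agent.H33.NFA.B

/-!
# PNM: the group of points and the 2-Selmer group
-/

set_option autoImplicit false
set_option linter.unusedSectionVars false

namespace Pool.PNM

open Polynomial NumberField
open Pool.AVR (Mod2 OnC)
open Pool.NFA.H33B

section Emb

variable {K : Type} [Field K]

theorem locSol_one {L : Type} [Field L] (f : L[X]) : LocSol f 1 :=
  ⟨1, 0, 1, monic_one, isCoprime_one_left, one_dvd _, by simp⟩

theorem locSol_pt {L : Type} [Field L] {f : L[X]} {x y : L} (h : f.eval x = y ^ 2) (hy : y ≠ 0) :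
    LocSol f (C x - X) := by
  refine ⟨X - C x, C y, 1, monic_X_sub_C x, ?_, ?_, ?_⟩
  · refine (Irreducible.coprime_iff_not_dvd (irreducible_X_sub_C x)).2 ?_
    rw [dvd_iff_isRoot, IsRoot.def, h]
    exact pow_ne_zero 2 hy
  · rw [dvd_iff_isRoot, IsRoot.def, eval_sub, eval_pow, eval_C, h, sub_self]
  · rw [natDegree_X_sub_C]
    simp

theorem one_mem_sel (f : K[X]) : (1 : (AdjoinRoot f)ˣ ⧸ Sq f) ∈ Sel f := by
  refine ⟨1, 1, rfl, by simp, ?_, ?_, ?_⟩
  · rw [map_one, map_one]
    exact IsSquare.one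
  · intro L _ O ι _
    rw [Polynomial.map_one]
    exact locSol_one _
  · intro σ
    rw [Polynomial.map_one]
    exact locSol_one _

open Classical in
theorem cls_mem' {f : K[X]} (hf : f.Monic) (hd : f.natDegree = 3) (hirr : Irreducible f)
    (R : PtG f) : (cls f R : (AdjoinRoot f)ˣ ⧸ Sq f) ∈ Sel f := by
  cases R with
  | zero => exact one_mem_sel f
  | some x y h =>
    have hC := Pool.Agent.H16.AVS.onC_of _ _ _ x y h
    have hev := onC_eval hf hd hC
    have hy := y_ne' hirr hd hev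
    have hU := isU hf hd hC hy
    rw [cls_some f x y h hU]
    have hloc : ∀ (L : Type) [Field L] (ι : K →+* L),
        LocSol (f.map ι) ((C x - X : K[X]).map ι) := by
      intro L _ ι
      have h1 : ((C x - X : K[X]).map ι) = C (ι x) - X := by simp
      rw [h1]
      refine locSol_pt (y := ι y) ?_ ((map_ne_zero ι).mpr hy)
      rw [eval_map, eval₂_hom, ← hev, map_pow]
    refine ⟨hU.unit, C x - X, rfl, hU.unit_spec.symm, ?_, ?_, ?_⟩
    · refine ⟨y, ?_⟩
      have := Pool.Agent.H16.AVS.norm_sub f hf x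
      rw [this, ← hev, pow_two]
    · intro L _ O ι _
      exact hloc L ι
    · intro σ
      exact hloc ℝ σ

open Classical in
/-- `E / 2E` and the Selmer group. -/
theorem emb {f : K[X]} (h2 : (2 : K) ≠ 0) (hf : f.Monic) (hd : f.natDegree = 3)
    (hirr : Irreducible f) (hsep : f.Separable) (hfin : (Sel f).Finite) :
    Finite (Mod2 (PtG f)) ∧ Nat.card (Mod2 (PtG f)) ≤ (Sel f).ncard := by
  obtain ⟨r, hr⟩ : ∃ r : Mod2 (PtG f) → PtG f, ∀ ξ, (QuotientAddGroup.mk (r ξ) : Mod2 (PtG f)) = ξ :=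
    ⟨fun ξ => ξ.out, fun ξ => QuotientAddGroup.out_eq' ξ⟩
  obtain ⟨φ, hφ⟩ : ∃ φ : Mod2 (PtG f) → ↥(Sel f), ∀ ξ, (φ ξ : _) = cls f (r ξ) :=
    ⟨fun ξ => ⟨cls f (r ξ), cls_mem' hf hd hirr _⟩, fun _ => rfl⟩
  have hinj : Function.Injective φ := by
    intro ξ η h
    have h1 : cls f (r ξ) = cls f (r η) := by rw [← hφ, ← hφ, h]
    obtain ⟨Q, hQ⟩ := cls_inj h2 hf hd hirr hsep _ _ h1
    rw [← hr ξ, ← hr η, eq_comm, QuotientAddGroup.eq]
    refine ⟨Q, ?_⟩
    show 2 • Q = -r η + r ξ
    rw [two_nsmul, ← hQ]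
    abel
  have : Finite ↥(Sel f) := hfin.to_subtype
  refine ⟨Finite.of_injective φ hinj, ?_⟩
  refine (Nat.card_le_card_of_injective φ hinj).trans ?_
  rw [Nat.card_coe_set_eq]

open Classical in
/-- There is no point of order two. -/
theorem no_two {f : K[X]} (h2 : (2 : K) ≠ 0) (hf : f.Monic) (hd : f.natDegree = 3)
    (hirr : Irreducible f) (R : PtG f) (hR : R + R = 0) : R = 0 := by
  cases R with
  | zero => rfl
  | some x y h =>
    exfalso
    have hC := Pool.Agent.H16.AVS.onC_of _ _ _ x y h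
    have hev := onC_eval hf hd hC
    have hy := y_ne' hirr hd hev
    have h1 := eq_neg_of_add_eq_zero_left hR
    rw [WeierstrassCurve.Affine.Point.neg_some, WeierstrassCurve.Affine.Point.some.injEq] at h1
    have h3 : y = -y := by
      have := h1.2
      simp only [WeierstrassCurve.Affine.negY, Pool.AVR.E] at this
      linear_combination this
    have h4 : (2 : K) * y = 0 := by linear_combination h3
    exact hy ((mul_eq_zero.1 h4).resolve_left h2)

theorem odd_of {G : Type} [AddCommGroup G] [Finite G] (h : ∀ R : G, R + R = 0 → R = 0) :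
    Odd (Nat.card G) := by
  by_contra hodd
  rw [Nat.not_odd_iff_even] at hodd
  haveI : Fact (Nat.Prime 2) := ⟨Nat.prime_two⟩
  obtain ⟨P, hP⟩ := exists_prime_addOrderOf_dvd_card' (G := G) 2 (even_iff_two_dvd.1 hodd)
  have h3 : (2 : ℕ) • P = 0 := by rw [← hP]; exact addOrderOf_nsmul_eq_zero P
  rw [two_nsmul] at h3
  rw [h P h3] at hP
  simp at hP

end Emb

section Mw

variable {K : Type} [Field K] [NumberField K]

open Classical in
theorem mw_of {f : K[X]} (hf : f.Monic) (hd : f.natDegree = 3) (hirr : Irreducible f) : MW f := by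
  intro hfin
  have hsep : f.Separable := hirr.separable
  obtain ⟨h1, h3⟩ := emb two_ne_zero hf hd hirr hsep hfin
  have h4 := mwk hf hd hsep h1
  exact ⟨h4, ((Pool.AVR.rnk_thm _ h4).2.1).trans h3, no_two two_ne_zero hf hd hirr⟩

open Classical in
theorem fin_of_rank {f : K[X]} (h1 : AddGroup.FG (Pts f)) (h2 : Module.finrank ℤ (Pts f) = 0) :
    Finite (Pts f) := by
  have : Module.Finite ℤ (Pts f) := Module.Finite.iff_addGroup_fg.2 h1
  have ht : Module.IsTorsion ℤ (Pts f) := Module.finrank_eq_zero_iff_isTorsion.1 h2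
  exact Module.finite_of_fg_torsion (Pts f) ht

theorem fin_of_ncard {f : K[X]} {k : ℕ} (hk : 0 < k) (h : (Sel f).ncard = k) :
    (Sel f).Finite := Set.finite_of_ncard_pos (by omega)

open Classical in
/-- A trivial Selmer group. -/
theorem odd_ord {f : K[X]} (h : MW f) (h1 : (Sel f).ncard = 1) :
    Finite (Pts f) ∧ Odd (Nat.card (Pts f)) := by
  obtain ⟨h2, h3, h4⟩ := h (fin_of_ncard one_pos h1)
  rw [h1] at h3
  have h5 : Module.finrank ℤ (Pts f) = 0 := by
    by_contra hne
    have : 2 ^ 1 ≤ 2 ^ Module.finrank ℤ (Pts f) :=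
      Nat.pow_le_pow_right (by norm_num) (Nat.one_le_iff_ne_zero.2 hne)
    omega
  have h6 := fin_of_rank h2 h5
  exact ⟨h6, odd_of h4⟩

end Mw

end Pool.PNM
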